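import Pool.Agent.N126.IS.Stm3

/-!
Project IS2 (helper126), part EQK (helper835): equations of the image of a variety under a generic
linear map.
-/

set_option autoImplicit false

open Pool.Agent.W602.GT LinearAlgebra.Projectivization MvPolynomial

namespace Pool.Agent.N835.IS

open Pool.Agent.N126.IS

/-- the determinant of a matrix with algebraically independent entries -/
lemma sub_det {K k0 : Type} [Field K] [Field k0] [Algebra k0 K] {n : ℕ}
    (M : Matrix (Fin (n + 1)) (Fin (n + 1)) K)
    (hsub : AlgebraicIndependent k0 (fun p : Fin (n + 1) × Fin (n + 1) => M p.1 p.2)) : M.det ≠ 0 := by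
    intro h0
    have h1 : aeval (fun p : Fin (n + 1) × Fin (n + 1) => M p.1 p.2)
        (Matrix.det (Matrix.mvPolynomialX (Fin (n + 1)) (Fin (n + 1)) k0)) = 0 := by
      rw [AlgHom.map_det, Matrix.mvPolynomialX_mapMatrix_aeval, h0]
    have h2 := hsub.eq_zero_of_aeval_eq_zero _ h1
    exact Matrix.det_mvPolynomialX_ne_zero (Fin (n + 1)) k0 h2

/-- a left inverse of a generic matrix -/
lemma left_inv {K k0 : Type} [Field K] [Field k0] [Algebra k0 K] {n N : ℕ} (hn : n ≤ N)
    (l : Matrix (Fin (N + 1)) (Fin (n + 1)) K)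
    (hl : AlgebraicIndependent k0 (fun p : Fin (N + 1) × Fin (n + 1) => l p.1 p.2)) :
    ∃ r : Matrix (Fin (n + 1)) (Fin (N + 1)) K, r * l = 1 := by
  have hle : n + 1 ≤ N + 1 := by omega
  have hinj : Function.Injective (fun p : Fin (n + 1) × Fin (n + 1) =>
      ((Fin.castLE hle p.1, p.2) : Fin (N + 1) × Fin (n + 1))) := by
    rintro ⟨a, b⟩ ⟨c, d⟩ h
    simp only [Prod.mk.injEq] at h
    exact Prod.ext (Fin.castLE_injective hle h.1) h.2
  obtain ⟨M, hM⟩ : ∃ M : Matrix (Fin (n + 1)) (Fin (n + 1)) K, ∀ j i, M j i = l (Fin.castLE hle j) i :=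
    ⟨fun j i => l (Fin.castLE hle j) i, fun _ _ => rfl⟩
  have hsub : AlgebraicIndependent k0 (fun p : Fin (n + 1) × Fin (n + 1) => M p.1 p.2) := by
    have := hl.comp _ hinj
    have e : (fun p : Fin (n + 1) × Fin (n + 1) => M p.1 p.2) =
      (fun p : Fin (N + 1) × Fin (n + 1) => l p.1 p.2) ∘ (fun p : Fin (n + 1) × Fin (n + 1) =>
      ((Fin.castLE hle p.1, p.2) : Fin (N + 1) × Fin (n + 1))) := by
      funext p
      exact hM _ _
    rw [e]
    exact this
  have hdet := sub_det M hsub
  have hSl : (Matrix.of fun (j : Fin (n + 1)) (a : Fin (N + 1)) => if Fin.castLE hle j = a then (1 : K) else 0) * l = M := by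
    ext j i
    rw [Matrix.mul_apply, hM]
    simp
  refine ⟨M⁻¹ * (Matrix.of fun (j : Fin (n + 1)) (a : Fin (N + 1)) => if Fin.castLE hle j = a then (1 : K) else 0), ?_⟩
  rw [Matrix.mul_assoc, hSl, Matrix.nonsing_inv_mul _ (isUnit_iff_ne_zero.2 hdet)]

theorem main_EQK : S_EQK := by
  intro K _ k0 _ _ n N D ι0 H l hn hD hH hl
  obtain ⟨r, hr⟩ := left_inv hn (Matrix.of l) hl
  have hr' : ∀ j i, ∑ a, r j a * l a i = if j = i then 1 else 0 := by
    intro j i
    have := congrFun (congrFun hr j) i
    rw [Matrix.mul_apply, Matrix.one_apply] at this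
    exact this
  refine ⟨ι0 ⊕ (Fin (N + 1) × Fin (N + 1)), Sum.elim
    (fun i => aeval (fun j => ∑ a, C (r j a) * X a) (map (algebraMap k0 K) (H i)))
    (fun p => (X p.1 - ∑ j, ∑ c, C (l p.1 j * r j c) * X c) * X p.2 ^ (D - 1)), ?_, ?_⟩
  · rintro (i | ⟨a, b⟩)
    · have h1 : ∀ j, (∑ a, C (r j a) * X a : MvPolynomial (Fin (N + 1)) K).IsHomogeneous 1 := by
        intro j
        exact IsHomogeneous.sum _ _ _ fun a _ => isHomogeneous_C_mul_X _ _
      have h2 := ((hH i).map (algebraMap k0 K)).aeval _ h1
      rw [one_mul] at h2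
      exact h2
    · have h1 : (X a - ∑ j, ∑ c, C (l a j * r j c) * X c :
          MvPolynomial (Fin (N + 1)) K).IsHomogeneous 1 := by
        refine (isHomogeneous_X K a).sub ?_
        exact IsHomogeneous.sum _ _ _ fun j _ => IsHomogeneous.sum _ _ _ fun c _ =>
          isHomogeneous_C_mul_X _ _
      have h2 : (X b ^ (D - 1) : MvPolynomial (Fin (N + 1)) K).IsHomogeneous (D - 1) := by
        have := (isHomogeneous_X K b).pow (D - 1)
        rwa [one_mul] at this
      have h3 := h1.mul h2
      have h4 : 1 + (D - 1) = D := by omega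
      rw [h4] at h3
      exact h3
  · intro Ω _ _ y
    set ρ : Fin (n + 1) → Ω := fun j => ∑ a, algebraMap K Ω (r j a) * y a with hρ
    have e1 : ∀ i, aeval y (aeval (fun j => ∑ a, C (r j a) * X a) (map (algebraMap k0 K) (H i)) :
        MvPolynomial (Fin (N + 1)) K) = aeval ρ (map (algebraMap k0 K) (H i)) := by
      intro i
      rw [MvPolynomial.comp_aeval_apply]
      congr 2
      funext j
      simp [hρ]
    have e2 : ∀ a b, aeval y ((X a - ∑ j, ∑ c, C (l a j * r j c) * X c) * X b ^ (D - 1) :
        MvPolynomial (Fin (N + 1)) K) = (y a - ∑ j, algebraMap K Ω (l a j) * ρ j) * y b ^ (D - 1) := by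
      intro a b
      simp only [map_mul, map_sub, map_sum, map_pow, aeval_X, algHom_C, hρ]
      congr 2
      refine Finset.sum_congr rfl fun j _ => ?_
      rw [Finset.mul_sum]
      refine Finset.sum_congr rfl fun c _ => ?_
      ring
    constructor
    · intro h
      refine ⟨ρ, fun i => ?_, fun a => ?_⟩
      · have := h (Sum.inl i)
        simp only [Sum.elim_inl] at this
        rwa [e1] at this
      · by_cases hy : y = 0
        · have hρ0 : ∀ j, ρ j = 0 := by
            intro j
            simp [hρ, hy]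
          simp [hρ0, hy]
        · obtain ⟨b, hb⟩ : ∃ b, y b ≠ 0 := by
            by_contra hc
            push Not at hc
            exact hy (funext hc)
          have := h (Sum.inr (a, b))
          simp only [Sum.elim_inr] at this
          rw [e2] at this
          have h3 : y b ^ (D - 1) ≠ 0 := pow_ne_zero _ hb
          exact sub_eq_zero.1 ((mul_eq_zero.1 this).resolve_right h3)
    · rintro ⟨v, hv, hy⟩
      have hρv : ρ = v := by
        funext j
        calc ρ j = ∑ a, ∑ i, algebraMap K Ω (r j a) * (algebraMap K Ω (l a i) * v i) := by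
              rw [hρ]
              refine Finset.sum_congr rfl fun a _ => ?_
              rw [hy a, Finset.mul_sum]
          _ = ∑ i, algebraMap K Ω (∑ a, r j a * l a i) * v i := by
              rw [Finset.sum_comm]
              refine Finset.sum_congr rfl fun i _ => ?_
              rw [map_sum, Finset.sum_mul]
              refine Finset.sum_congr rfl fun a _ => ?_
              rw [map_mul]; ring
          _ = v j := by
              simp [hr']
      rintro (i | ⟨a, b⟩)
      · simp only [Sum.elim_inl]
        rw [e1, hρv]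
        exact hv i
      · simp only [Sum.elim_inr]
        rw [e2, hρv, hy a, sub_self, zero_mul]

end Pool.Agent.N835.IS
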